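import Mathlib

set_option autoImplicit false

namespace Pool.Agent.Results.MP_716318_co.Counter

open Finset

def F : Finset (Finset (Fin 7)) := {s | #(s ∩ {0, 1, 2}) = 2 ∧ #(s ∩ {3, 4, 5}) = 2 ∧ 6 ∉ s}

def w (a : Fin 7) : ℕ := if a < 3 then 1 else if a < 6 then 4 else 20

def t (a b c d : Fin 7) : Bool := w a + w b + w c + w d == 10

theorem mem : ∀ a b c d : Fin 7, [a, b, c, d].Nodup → t a b c d →
    #({a, b, c, d} ∩ {0, 1, 2} : Finset (Fin 7)) = 2 ∧
      #({a, b, c, d} ∩ {3, 4, 5} : Finset (Fin 7)) = 2 ∧ 6 ∉ ({a, b, c, d} : Finset (Fin 7)) := by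
  decide +kernel

theorem key : ∀ a b : Fin 7, b ∉ [a] → ∀ c, c ∉ [a, b] → ∀ d, d ∉ [a, b, c] →
    ∀ e, e ∉ [a, b, c, d] → ∀ f, f ∉ [a, b, c, d, e] → ∀ g, g ∉ [a, b, c, d, e, f] →
    (t a b c d || (t a b d e || (t a b e f || (t a b f g || (t b c d e || (t b c e f ||
      (t b c f g || (t c d e f || (t c d f g || t d e f g))))))))) = true := by
  decide +kernel

theorem result : ∃ (n : ℕ) (F : Finset (Finset (Fin n))), 4 ≤ n ∧ (∀ s ∈ F, #s = 4) ∧
    #F < (n - 2).choose 2 ∧ ∀ v : Fin n ≃ Fin n, ∃ (i j : ℕ) (hi : i + 1 < j) (hj : j + 1 < n),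
      {v ⟨i, by omega⟩, v ⟨i + 1, by omega⟩, v ⟨j, by omega⟩, v ⟨j + 1, hj⟩} ∈ F := by
  refine ⟨7, F, by decide, by decide +kernel, by decide +kernel, fun v => ?_⟩
  have m : ∀ a b c d : Fin 7, [a, b, c, d].Nodup → t (v a) (v b) (v c) (v d) →
      {v a, v b, v c, v d} ∈ F := fun a b c d h ht =>
    mem_filter.2 ⟨mem_univ _, mem _ _ _ _ (h.map v.injective) ht⟩
  have k := key (v 0) (v 1) (by simp) (v 2) (by simp) (v 3) (by simp) (v 4) (by simp) (v 5)
    (by simp) (v 6) (by simp)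
  simp only [Bool.or_eq_true] at k
  rcases k with h | h | h | h | h | h | h | h | h | h
  exacts [⟨0, 2, by decide, by decide, m _ _ _ _ (by decide) h⟩,
    ⟨0, 3, by decide, by decide, m _ _ _ _ (by decide) h⟩,
    ⟨0, 4, by decide, by decide, m _ _ _ _ (by decide) h⟩,
    ⟨0, 5, by decide, by decide, m _ _ _ _ (by decide) h⟩,
    ⟨1, 3, by decide, by decide, m _ _ _ _ (by decide) h⟩,
    ⟨1, 4, by decide, by decide, m _ _ _ _ (by decide) h⟩,
    ⟨1, 5, by decide, by decide, m _ _ _ _ (by decide) h⟩,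
    ⟨2, 4, by decide, by decide, m _ _ _ _ (by decide) h⟩,
    ⟨2, 5, by decide, by decide, m _ _ _ _ (by decide) h⟩,
    ⟨3, 5, by decide, by decide, m _ _ _ _ (by decide) h⟩]

end Pool.Agent.Results.MP_716318_co.Counter
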